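import Mathlib

/-!
# Cyclicity of `1 - (z₁ + z₂) / 2` in the weighted spaces `D_β` of the bidisk

`D_β(𝔻²)` is the Hilbert space of all holomorphic functions `F(z) = ∑_J a_J z^J` on the bidisk with
`‖F‖_β² = ∑_J |a_J|² (|J| + 2)^β < ∞`.  We prove: for every real `β`, the function
`f₀(z) = 1 - (z₁ + z₂) / 2` is cyclic in `D_β(𝔻²)` if and only if `β ≤ 2`.

Idea of the proof for `β ≤ 2`.  If `g` is orthogonal to all `p * f₀`, then the numbers
`h(J) = (|J| + 2)^β * conj (coefficient of g)` satisfy `2 h(i,j) = h(i+1,j) + h(i,j+1)`.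
With `H_n = ∑_{|J| = n} |h(J)|²` and `u(i,j) = h(i+1,j) - h(i,j+1)`, the parallelogram law gives
`H_{n+1} ≥ H_n + U_n / 4`, where `U_n` is the same energy for `u`, and `U_n` is nondecreasing.  So
`H_n` grows at least linearly unless `h = 0`, which contradicts `∑_n H_n (n + 2)^(-β) < ∞`.
-/

set_option autoImplicit false

namespace Pool.Agent.Results.MP_f86430_an.CyclicIffLeTwo

open Finset

/-! ## The spaces and cyclic vectors -/

/-- The weight `(|J| + 2) ^ β` attached to the monomial `z ^ J = z₁ ^ J.1 * z₂ ^ J.2`. -/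
noncomputable def weight (β : ℝ) (J : ℕ × ℕ) : ℝ := ((J.1 : ℝ) + J.2 + 2) ^ β

/-- On the open bidisk the function `F` is the sum of the (unconditionally convergent) power series
with coefficients `a`, that is `F z = ∑_J a_J z ^ J` whenever `|z₁| < 1` and `|z₂| < 1`.
(The coefficients are uniquely determined by the values of `F` on the bidisk.) -/
def HasCoeffs (F : ℂ × ℂ → ℂ) (a : ℕ × ℕ → ℂ) : Prop :=
  ∀ z : ℂ × ℂ, ‖z.1‖ < 1 → ‖z.2‖ < 1 →
    HasSum (fun J : ℕ × ℕ => a J * (z.1 ^ J.1 * z.2 ^ J.2)) (F z)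

/-- `F` (restricted to the bidisk) belongs to `D_β(𝔻²)`: it is the sum of a power series whose
coefficients satisfy `∑_J |a_J|² (|J| + 2)^β < ∞`. -/
def MemD (β : ℝ) (F : ℂ × ℂ → ℂ) : Prop :=
  ∃ a : ℕ × ℕ → ℂ, HasCoeffs F a ∧ Summable fun J => ‖a J‖ ^ 2 * weight β J

/-- `F` (restricted to the bidisk) belongs to `D_β(𝔻²)` and `‖F‖_β² < ε²`, where
`‖F‖_β² = ∑_J |a_J|² (|J| + 2)^β`. -/
def NormLT (β : ℝ) (F : ℂ × ℂ → ℂ) (ε : ℝ) : Prop :=
  ∃ a : ℕ × ℕ → ℂ, HasCoeffs F a ∧ (Summable fun J => ‖a J‖ ^ 2 * weight β J) ∧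
    ∑' J, ‖a J‖ ^ 2 * weight β J < ε ^ 2

/-- `F` is cyclic in `D_β(𝔻²)`: `F` belongs to `D_β(𝔻²)`, and every `G` in `D_β(𝔻²)` can be
approximated in the norm of `D_β(𝔻²)`, to any accuracy `ε > 0`, by products `p * F` with `p` a
polynomial in `z₁, z₂`. -/
def IsCyclicVector (β : ℝ) (F : ℂ × ℂ → ℂ) : Prop :=
  MemD β F ∧ ∀ G : ℂ × ℂ → ℂ, MemD β G → ∀ ε > (0 : ℝ), ∃ p : MvPolynomial (Fin 2) ℂ,
    NormLT β (fun z => MvPolynomial.eval ![z.1, z.2] p * F z - G z) ε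

/-- The function `f(z) = 1 - (z₁ + z₂) / 2`. -/
noncomputable def f₀ (z : ℂ × ℂ) : ℂ := 1 - (z.1 + z.2) / 2

/-! ## Functions with `2 h(i,j) = h(i+1,j) + h(i,j+1)` have at least linearly growing energy -/

/-- The energy `∑_{i + j = n} |h(i,j)|²` at level `n`. -/
noncomputable def lev (h : ℕ → ℕ → ℂ) (n : ℕ) : ℝ :=
  ∑ p ∈ antidiagonal n, ‖h p.1 p.2‖ ^ 2

lemma lev_nonneg (h : ℕ → ℕ → ℂ) (n : ℕ) : 0 ≤ lev h n :=
  Finset.sum_nonneg fun _ _ => by positivity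

lemma lev_succ_ge (h : ℕ → ℕ → ℂ)
    (hh : ∀ i j, 2 * h i j = h (i + 1) j + h i (j + 1)) (n : ℕ) :
    lev h n + lev (fun i j => h (i + 1) j - h i (j + 1)) n / 4 ≤ lev h (n + 1) := by
  have h1 : lev h (n + 1) = ‖h 0 (n + 1)‖ ^ 2 + ∑ p ∈ antidiagonal n, ‖h (p.1 + 1) p.2‖ ^ 2 :=
    Finset.Nat.sum_antidiagonal_succ
  have h2 : lev h (n + 1) = ‖h (n + 1) 0‖ ^ 2 + ∑ p ∈ antidiagonal n, ‖h p.1 (p.2 + 1)‖ ^ 2 :=
    Finset.Nat.sum_antidiagonal_succ'
  have h3 : ∑ p ∈ antidiagonal n, ‖h (p.1 + 1) p.2‖ ^ 2 + ∑ p ∈ antidiagonal n, ‖h p.1 (p.2 + 1)‖ ^ 2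
      = 2 * lev h n + lev (fun i j => h (i + 1) j - h i (j + 1)) n / 2 := by
    unfold lev
    rw [← Finset.sum_add_distrib, Finset.mul_sum, Finset.sum_div, ← Finset.sum_add_distrib]
    refine Finset.sum_congr rfl fun p _ => ?_
    have := parallelogram_law_with_norm ℝ (h (p.1 + 1) p.2) (h p.1 (p.2 + 1))
    rw [← hh, norm_mul, RCLike.norm_ofNat] at this
    dsimp only
    nlinarith
  have h4 : 0 ≤ ‖h 0 (n + 1)‖ ^ 2 := by positivity
  have h5 : 0 ≤ ‖h (n + 1) 0‖ ^ 2 := by positivity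
  linarith

lemma lev_mono (h : ℕ → ℕ → ℂ)
    (hh : ∀ i j, 2 * h i j = h (i + 1) j + h i (j + 1)) : Monotone (lev h) := by
  refine monotone_nat_of_le_succ fun n => ?_
  have := lev_succ_ge h hh n
  have h2 := lev_nonneg (fun i j => h (i + 1) j - h i (j + 1)) n
  linarith

/-- Unless `h = 0`, the energy grows at least linearly. -/
lemma lev_linear (h : ℕ → ℕ → ℂ)
    (hh : ∀ i j, 2 * h i j = h (i + 1) j + h i (j + 1)) (hne : ∃ i j, h i j ≠ 0) :
    ∃ c > (0 : ℝ), ∃ n₀ : ℕ, ∀ n, c * n ≤ lev h (n₀ + n) := by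
  by_cases hu : ∃ i j, h (i + 1) j - h i (j + 1) ≠ 0
  · obtain ⟨i, j, hij⟩ := hu
    set u : ℕ → ℕ → ℂ := fun i j => h (i + 1) j - h i (j + 1) with hu
    have huh : ∀ i j, 2 * u i j = u (i + 1) j + u i (j + 1) := by
      intro i j
      simp only [hu]
      have e1 := hh (i + 1) j
      have e2 := hh i (j + 1)
      linear_combination e1 - e2
    have hpos : 0 < lev u (i + j) := by
      unfold lev
      refine Finset.sum_pos' (fun _ _ => by positivity) ⟨(i, j), by simp, ?_⟩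
      have : 0 < ‖u i j‖ := norm_pos_iff.mpr hij
      positivity
    refine ⟨lev u (i + j) / 4, by positivity, i + j, fun n => ?_⟩
    induction n with
    | zero => simpa using lev_nonneg h _
    | succ n ih =>
      have e1 := lev_succ_ge h hh (i + j + n)
      have e2 : lev u (i + j) ≤ lev u (i + j + n) := lev_mono u huh (by omega)
      push_cast
      have e3 : i + j + (n + 1) = i + j + n + 1 := by ring
      rw [e3]
      linarith
  · push Not at hu
    obtain ⟨i, j, hij⟩ := hne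
    have h1 : ∀ i j, h (i + 1) j = h i j := by
      intro i j
      have e1 := hh i j
      have e2 := hu i j
      linear_combination (-1/2 : ℂ) * e1 + (1/2 : ℂ) * e2
    have h2 : ∀ i j, h i (j + 1) = h i j := by
      intro i j
      have e1 := hh i j
      have e2 := hu i j
      linear_combination (-1/2 : ℂ) * e1 - (1/2 : ℂ) * e2
    have h3 : ∀ i j, h i j = h 0 0 := by
      intro i
      induction i with
      | zero =>
        intro j
        induction j with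
        | zero => rfl
        | succ j ih => rw [h2, ih]
      | succ i ih => intro j; rw [h1, ih]
    have h4 : 0 < ‖h 0 0‖ ^ 2 := by
      rw [h3] at hij
      have := norm_pos_iff.mpr hij
      positivity
    refine ⟨‖h 0 0‖ ^ 2, h4, 0, fun n => ?_⟩
    have : lev h (0 + n) = (n + 1) * ‖h 0 0‖ ^ 2 := by
      unfold lev
      rw [Finset.sum_congr rfl (fun p _ => by rw [h3 p.1 p.2])]
      simp
    rw [this]
    nlinarith

/-- Key lemma: there is no nonzero `h` with finite weighted energy when `β ≤ 2`. -/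
lemma harmonic_zero (β : ℝ) (hβ : β ≤ 2) (h : ℕ → ℕ → ℂ)
    (hh : ∀ i j, 2 * h i j = h (i + 1) j + h i (j + 1))
    (hs : Summable fun p : ℕ × ℕ => ‖h p.1 p.2‖ ^ 2 * ((p.1 : ℝ) + p.2 + 2) ^ (-β)) :
    ∀ i j, h i j = 0 := by
  by_contra hne
  push Not at hne
  obtain ⟨c, hc, n₀, hlin⟩ := lev_linear h hh hne
  -- sum over antidiagonals
  have hs2 : Summable fun n : ℕ => lev h n * ((n : ℝ) + 2) ^ (-β) := by
    have e := (Finset.HasAntidiagonal.sigmaAntidiagonalEquivProd (A := ℕ)).summable_iff.mpr hs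
    have e2 := e.sigma
    refine e2.congr fun n => ?_
    rw [tsum_fintype]
    unfold lev
    rw [Finset.sum_mul, ← Finset.sum_coe_sort (antidiagonal n)]
    refine Finset.sum_congr rfl fun p _ => ?_
    have hp := Finset.HasAntidiagonal.mem_antidiagonal.mp p.2
    have hp' : ((p.1.1 : ℝ) + p.1.2) = n := by exact_mod_cast hp
    simp only [Function.comp, Finset.HasAntidiagonal.sigmaAntidiagonalEquivProd_apply]
    rw [hp']
  have hs3 : Summable fun n : ℕ => ((n : ℝ) + 1)⁻¹ := by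
    have e := (summable_nat_add_iff (2 * n₀ + 2)).mpr hs2
    have e1 := e.mul_left (4 * (n₀ + 2) * c⁻¹)
    refine Summable.of_nonneg_of_le (fun n => by positivity) (fun n => ?_) e1
    set N : ℕ := n + (2 * n₀ + 2) with hN
    have hNr : (N : ℝ) = n + (2 * n₀ + 2) := by rw [hN]; push_cast; ring
    have f1 : c * ((n : ℝ) + n₀ + 2) ≤ lev h N := by
      have := hlin (n + n₀ + 2)
      have e3 : n₀ + (n + n₀ + 2) = N := by omega
      rw [e3] at this
      push_cast at this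
      exact this
    have f2 : ((N : ℝ) + 2) ^ (-(2 : ℝ)) ≤ ((N : ℝ) + 2) ^ (-β) := by
      apply Real.rpow_le_rpow_of_exponent_le
      · have : (0 : ℝ) ≤ N := Nat.cast_nonneg N
        linarith
      · linarith
    have f3 : ((N : ℝ) + 2) ^ (-(2 : ℝ)) = (((N : ℝ) + 2) ^ 2)⁻¹ := by
      rw [Real.rpow_neg (by positivity)]
      norm_num
    have f4 : c * ((n : ℝ) + n₀ + 2) * (((N : ℝ) + 2) ^ 2)⁻¹ ≤ lev h N * ((N : ℝ) + 2) ^ (-β) := by
      rw [← f3]
      exact mul_le_mul f1 f2 (by positivity) (lev_nonneg h N)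
    have f5 : ((n : ℝ) + 1)⁻¹ ≤ 4 * (n₀ + 2) * c⁻¹ * (c * ((n : ℝ) + n₀ + 2) * (((N : ℝ) + 2) ^ 2)⁻¹) := by
      rw [hNr]
      have hn : (0 : ℝ) ≤ n := Nat.cast_nonneg n
      have hn0 : (0 : ℝ) ≤ n₀ := Nat.cast_nonneg n₀
      have : 4 * ((n₀ : ℝ) + 2) * c⁻¹ * (c * ((n : ℝ) + n₀ + 2) * ((((n : ℝ) + (2 * n₀ + 2)) + 2) ^ 2)⁻¹)
          = (4 * ((n₀ : ℝ) + 2) * ((n : ℝ) + n₀ + 2)) / (((n : ℝ) + (2 * n₀ + 2)) + 2) ^ 2 := by
        field_simp
      rw [this, inv_eq_one_div, div_le_div_iff₀ (by positivity) (by positivity)]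
      nlinarith [mul_nonneg hn hn0, mul_nonneg (mul_nonneg hn hn0) hn, mul_nonneg (mul_nonneg hn hn0) hn0,
        mul_nonneg hn hn, mul_nonneg hn0 hn0]
    calc ((n : ℝ) + 1)⁻¹ ≤ _ := f5
      _ ≤ 4 * (n₀ + 2) * c⁻¹ * (lev h N * ((N : ℝ) + 2) ^ (-β)) :=
        mul_le_mul_of_nonneg_left f4 (by positivity)
  have hs4 : Summable fun n : ℕ => ((n : ℝ))⁻¹ := by
    refine (summable_nat_add_iff 1).mp ?_
    refine hs3.congr fun n => ?_
    push_cast
    rfl
  exact Real.not_summable_natCast_inv hs4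

/-! ## The Hilbert space argument -/

/-- square root of the weight -/
noncomputable def sw (β : ℝ) (J : ℕ × ℕ) : ℝ := ((J.1 : ℝ) + J.2 + 2) ^ (β / 2)

lemma base_pos (J : ℕ × ℕ) : 0 < (J.1 : ℝ) + J.2 + 2 := by positivity

lemma sw_pos (β : ℝ) (J : ℕ × ℕ) : 0 < sw β J := Real.rpow_pos_of_pos (base_pos J) _

lemma weight_pos (β : ℝ) (J : ℕ × ℕ) : 0 < weight β J := Real.rpow_pos_of_pos (base_pos J) _

lemma sw_sq (β : ℝ) (J : ℕ × ℕ) : sw β J ^ 2 = weight β J := by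
  unfold sw weight
  rw [← Real.rpow_natCast, ← Real.rpow_mul (base_pos J).le]
  norm_num

/-- finitely supported coefficients -/
lemma hasSum_three (c₁ c₂ c₃ : ℂ) (J₁ J₂ J₃ : ℕ × ℕ) (m : ℕ × ℕ → ℂ) :
    HasSum (fun K => ((if K = J₁ then c₁ else 0) + (if K = J₂ then c₂ else 0)
      + (if K = J₃ then c₃ else 0)) * m K) (c₁ * m J₁ + c₂ * m J₂ + c₃ * m J₃) := by
  have e : ∀ (c : ℂ) (J : ℕ × ℕ), HasSum (fun K => (if K = J then c else 0) * m K) (c * m J) := by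
    intro c J
    have := hasSum_single (f := fun K => (if K = J then c else 0) * m K) J
      (fun b' hb => by simp [hb])
    simpa using this
  simpa only [add_mul] using ((e c₁ J₁).add (e c₂ J₂)).add (e c₃ J₃)

/-- the Hilbert space -/
noncomputable abbrev H := lp (fun _ : ℕ × ℕ => ℂ) 2

/-- the vectors of `H` which represent `p * f₀` for a polynomial `p` -/
noncomputable def S (β : ℝ) : Submodule ℂ H where
  carrier := {x | ∃ p : MvPolynomial (Fin 2) ℂ,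
    HasCoeffs (fun z => MvPolynomial.eval ![z.1, z.2] p * f₀ z)
      (fun J => (x : ℕ × ℕ → ℂ) J * ((sw β J)⁻¹ : ℝ))}
  add_mem' := by
    rintro x y ⟨p, hp⟩ ⟨q, hq⟩
    refine ⟨p + q, fun z h1 h2 => ?_⟩
    have := (hp z h1 h2).add (hq z h1 h2)
    simp only [map_add, lp.coeFn_add, Pi.add_apply, add_mul]
    simpa only [← add_mul] using this
  zero_mem' := by
    refine ⟨0, fun z h1 h2 => ?_⟩
    simp
  smul_mem' := by
    rintro c x ⟨p, hp⟩
    refine ⟨MvPolynomial.C c * p, fun z h1 h2 => ?_⟩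
    have := (hp z h1 h2).mul_left c
    simp only [map_mul, MvPolynomial.eval_C, lp.coeFn_smul, Pi.smul_apply, smul_eq_mul]
    simpa only [mul_assoc] using this

/-- the generator corresponding to `z^J f₀` -/
noncomputable def gen (β : ℝ) (J : ℕ × ℕ) : H :=
  lp.single 2 J (sw β J : ℂ) + lp.single 2 (J.1 + 1, J.2) (-(sw β (J.1 + 1, J.2) : ℂ) / 2)
    + lp.single 2 (J.1, J.2 + 1) (-(sw β (J.1, J.2 + 1) : ℂ) / 2)

lemma gen_mem (β : ℝ) (J : ℕ × ℕ) : gen β J ∈ S β := by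
  refine ⟨MvPolynomial.X 0 ^ J.1 * MvPolynomial.X 1 ^ J.2, fun z h1 h2 => ?_⟩
  have := hasSum_three 1 (-1/2) (-1/2) J (J.1 + 1, J.2) (J.1, J.2 + 1)
    (fun K => z.1 ^ K.1 * z.2 ^ K.2)
  have e1 : (fun K : ℕ × ℕ => (gen β J : ℕ × ℕ → ℂ) K * (((sw β K)⁻¹ : ℝ) : ℂ) * (z.1 ^ K.1 * z.2 ^ K.2))
      = (fun K => ((if K = J then (1:ℂ) else 0) + (if K = (J.1 + 1, J.2) then (-1/2 : ℂ) else 0)
      + (if K = (J.1, J.2 + 1) then (-1/2 : ℂ) else 0)) * (z.1 ^ K.1 * z.2 ^ K.2)) := by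
    funext K
    congr 1
    have hK : ((sw β K : ℝ) : ℂ) ≠ 0 := by exact_mod_cast (sw_pos β K).ne'
    have e2 : ∀ (L : ℕ × ℕ) (c : ℂ), (Pi.single L (c * sw β L) : ℕ × ℕ → ℂ) K * (((sw β K)⁻¹ : ℝ) : ℂ)
        = if K = L then c else 0 := by
      intro L c
      by_cases hKL : K = L
      · subst hKL
        simp only [Pi.single_eq_same, if_true, Complex.ofReal_inv]
        field_simp
      · simp [hKL]
    have e3 := e2 J 1
    have e4 := e2 (J.1 + 1, J.2) (-1/2)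
    have e5 := e2 (J.1, J.2 + 1) (-1/2)
    unfold gen
    simp only [lp.coeFn_add, Pi.add_apply, lp.coeFn_single]
    rw [← e3, ← e4, ← e5, ← add_mul, ← add_mul, one_mul]
    congr 5 <;> ring
  dsimp only
  rw [e1]
  convert this using 1
  simp [f₀]
  ring

lemma sw_rel_of_orth (β : ℝ) (g : H) (hg : g ∈ (S β)ᗮ) (i j : ℕ) :
    2 * ((sw β (i, j) : ℂ) * (g : ℕ × ℕ → ℂ) (i, j)) =
      (sw β (i + 1, j) : ℂ) * (g : ℕ × ℕ → ℂ) (i + 1, j)
      + (sw β (i, j + 1) : ℂ) * (g : ℕ × ℕ → ℂ) (i, j + 1) := by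
  have := (Submodule.mem_orthogonal _ _).mp hg _ (gen_mem β (i, j))
  unfold gen at this
  rw [inner_add_left, inner_add_left, lp.inner_single_left, lp.inner_single_left,
    lp.inner_single_left] at this
  simp only [RCLike.inner_apply] at this
  simp only [map_div₀, map_neg, Complex.conj_ofReal, Complex.conj_ofNat] at this
  linear_combination 2 * this

lemma S_orth (β : ℝ) (hβ : β ≤ 2) : (S β)ᗮ = ⊥ := by
  rw [Submodule.eq_bot_iff]
  intro g hg
  have h0 := harmonic_zero β hβ (fun i j => (sw β (i, j) : ℂ) * (g : ℕ × ℕ → ℂ) (i, j))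
    (fun i j => sw_rel_of_orth β g hg i j) ?_
  · ext J
    have := h0 J.1 J.2
    have hJ : ((sw β J : ℝ) : ℂ) ≠ 0 := by exact_mod_cast (sw_pos β J).ne'
    simpa [hJ] using this
  · have h1 := lp.memℓp g
    have h2 := (memℓp_gen_iff (by norm_num : (0 : ℝ) < (2 : ENNReal).toReal)).mp h1
    refine h2.congr fun J => ?_
    rw [norm_mul, Complex.norm_real, Real.norm_of_nonneg (sw_pos β _).le, mul_pow, sw_sq]
    unfold weight
    rw [Real.rpow_neg (base_pos J).le]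
    have := Real.rpow_pos_of_pos (base_pos J) β
    simp only [ENNReal.toReal_ofNat, Real.rpow_ofNat]
    field_simp


/-- the vector of `H` attached to a coefficient family -/
lemma exists_vec (β : ℝ) (b : ℕ × ℕ → ℂ) (hb : Summable fun J => ‖b J‖ ^ 2 * weight β J) :
    ∃ x : H, ∀ J, (x : ℕ × ℕ → ℂ) J = b J * (sw β J : ℂ) := by
  have hmem : Memℓp (fun J => b J * (sw β J : ℂ)) 2 := by
    rw [memℓp_gen_iff (by norm_num : (0 : ℝ) < (2 : ENNReal).toReal)]
    refine hb.congr fun J => ?_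
    rw [norm_mul, Complex.norm_real, Real.norm_of_nonneg (sw_pos β _).le]
    simp only [ENNReal.toReal_ofNat, Real.rpow_ofNat]
    rw [mul_pow, sw_sq]
  exact ⟨⟨_, hmem⟩, fun J => rfl⟩

lemma f₀_mem (β : ℝ) : MemD β f₀ := by
  refine ⟨fun K => (if K = (0, 0) then (1:ℂ) else 0) + (if K = (1, 0) then (-1/2 : ℂ) else 0)
      + (if K = (0, 1) then (-1/2 : ℂ) else 0), fun z h1 h2 => ?_, ?_⟩
  · convert hasSum_three 1 (-1/2) (-1/2) (0, 0) (1, 0) (0, 1) (fun K => z.1 ^ K.1 * z.2 ^ K.2) using 1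
    simp [f₀]
    ring
  · refine summable_of_ne_finset_zero (s := {(0, 0), (1, 0), (0, 1)}) fun J hJ => ?_
    simp only [Finset.mem_insert, Finset.mem_singleton, not_or] at hJ
    simp [hJ.1, hJ.2.1, hJ.2.2]

lemma cyclic_of_le (β : ℝ) (hβ : β ≤ 2) : IsCyclicVector β f₀ := by
  refine ⟨f₀_mem β, fun G hG ε hε => ?_⟩
  obtain ⟨b, hb1, hb2⟩ := hG
  obtain ⟨y, hy⟩ := exists_vec β b hb2
  have htop : (S β).topologicalClosure = ⊤ :=
    (Submodule.topologicalClosure_eq_top_iff).mpr (S_orth β hβ)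
  have hy2 : y ∈ closure ((S β : Submodule ℂ H) : Set H) := by
    have : y ∈ (S β).topologicalClosure := by rw [htop]; trivial
    exact this
  obtain ⟨x, hx, hxy⟩ := Metric.mem_closure_iff.mp hy2 ε hε
  obtain ⟨p, hp⟩ := hx
  have hnorm := lp.hasSum_norm (p := 2) (by norm_num) (x - y)
  have hfun : ∀ J, ‖(x : ℕ × ℕ → ℂ) J * (((sw β J)⁻¹ : ℝ) : ℂ) - b J‖ ^ 2 * weight β J
      = ‖((x - y : H) : ℕ × ℕ → ℂ) J‖ ^ (2 : ENNReal).toReal := by
    intro J
    have hJ : ((sw β J : ℝ) : ℂ) ≠ 0 := by exact_mod_cast (sw_pos β J).ne'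
    simp only [lp.coeFn_sub, Pi.sub_apply, ENNReal.toReal_ofNat, Real.rpow_ofNat]
    rw [hy, ← sw_sq, ← mul_pow]
    congr 1
    have e : (x : ℕ × ℕ → ℂ) J - b J * (sw β J : ℂ)
        = ((x : ℕ × ℕ → ℂ) J * (((sw β J)⁻¹ : ℝ) : ℂ) - b J) * (sw β J : ℂ) := by
      push_cast
      field_simp
    rw [e, norm_mul, Complex.norm_real, Real.norm_of_nonneg (sw_pos β _).le]
  refine ⟨p, fun J => (x : ℕ × ℕ → ℂ) J * (((sw β J)⁻¹ : ℝ) : ℂ) - b J, fun z h1 h2 => ?_, ?_, ?_⟩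
  · have := (hp z h1 h2).sub (hb1 z h1 h2)
    simpa only [← sub_mul] using this
  · exact hnorm.summable.congr fun J => (hfun J).symm
  · have h3 : ∑' J, ‖(x : ℕ × ℕ → ℂ) J * (((sw β J)⁻¹ : ℝ) : ℂ) - b J‖ ^ 2 * weight β J
        = ‖x - y‖ ^ 2 := by
      rw [tsum_congr hfun, hnorm.tsum_eq]
      simp
    rw [h3, ← dist_eq_norm, dist_comm]
    exact pow_lt_pow_left₀ hxy dist_nonneg (by norm_num)

lemma summable_weight_inv (β : ℝ) (hβ : 2 < β) : Summable fun J : ℕ × ℕ => (weight β J)⁻¹ := by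
  have e := (Finset.HasAntidiagonal.sigmaAntidiagonalEquivProd (A := ℕ)).summable_iff
    (f := fun J : ℕ × ℕ => (weight β J)⁻¹)
  rw [← e]
  refine (summable_sigma_of_nonneg ?_).mpr ?_
  · exact fun x => (inv_pos.mpr (weight_pos β _)).le
  refine ⟨fun n => (hasSum_fintype _).summable, ?_⟩
  have h1 : Summable fun n : ℕ => ((n : ℝ) + 2) ^ (1 - β) := by
    have := (summable_nat_add_iff 2).mpr (Real.summable_nat_rpow.mpr (by linarith : 1 - β < -1))
    simpa using this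
  refine Summable.of_nonneg_of_le (fun n => tsum_nonneg fun x => (inv_pos.mpr (weight_pos β _)).le)
    (fun n => ?_) h1
  rw [tsum_fintype]
  have h2 : ∀ x : antidiagonal n, ((fun J : ℕ × ℕ => (weight β J)⁻¹) ∘
      (Finset.HasAntidiagonal.sigmaAntidiagonalEquivProd (A := ℕ))) ⟨n, x⟩ = (((n : ℝ) + 2) ^ β)⁻¹ := by
    intro p
    have hp := Finset.HasAntidiagonal.mem_antidiagonal.mp p.2
    have hp' : ((p.1.1 : ℝ) + p.1.2) = n := by exact_mod_cast hp
    simp only [Function.comp, Finset.HasAntidiagonal.sigmaAntidiagonalEquivProd_apply]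
    unfold weight
    rw [hp']
  rw [Finset.sum_congr rfl (fun x _ => h2 x)]
  simp only [Finset.sum_const, Finset.card_univ, Fintype.card_coe, Finset.Nat.card_antidiagonal,
    nsmul_eq_mul]
  have h3 : (0 : ℝ) < (n : ℝ) + 2 := by positivity
  rw [Real.rpow_sub h3, Real.rpow_one, div_eq_mul_inv]
  push_cast
  have h4 : 0 < (((n : ℝ) + 2) ^ β)⁻¹ := inv_pos.mpr (Real.rpow_pos_of_pos h3 _)
  nlinarith

lemma not_cyclic_of_gt (β : ℝ) (hβ : 2 < β) : ¬ IsCyclicVector β f₀ := by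
  rintro ⟨-, hcyc⟩
  have hsum := summable_weight_inv β hβ
  set A : ℝ := ∑' J, (weight β J)⁻¹ with hA
  have hA0 : 0 ≤ A := tsum_nonneg fun x => (inv_pos.mpr (weight_pos β _)).le
  have h1mem : MemD β (fun _ => 1) := by
    refine ⟨fun K => if K = (0, 0) then (1:ℂ) else 0, fun z h1 h2 => ?_, ?_⟩
    · have := hasSum_single (f := fun K : ℕ × ℕ => (if K = (0, 0) then (1 : ℂ) else 0) *
        (z.1 ^ K.1 * z.2 ^ K.2)) (0, 0) (fun b' hb => by simp [hb])
      simpa using this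
    · refine summable_of_ne_finset_zero (s := {(0, 0)}) fun J hJ => ?_
      simp only [Finset.mem_singleton] at hJ
      simp [hJ]
  set t : ℝ := 2 * A + 1 with ht
  have ht0 : 0 < t := by positivity
  obtain ⟨p, a, ha1, ha2, ha3⟩ := hcyc _ h1mem (1 / (2 * t)) (by positivity)
  -- the coefficients are summable with sum at most 1/2
  have hle : ∀ J, ‖a J‖ ≤ (t * (‖a J‖ ^ 2 * weight β J) + t⁻¹ * (weight β J)⁻¹) / 2 := by
    intro J
    have hw := weight_pos β J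
    have h5 : 0 ≤ (t * weight β J * ‖a J‖ - 1) ^ 2 := sq_nonneg _
    have h6 : (t * (‖a J‖ ^ 2 * weight β J) + t⁻¹ * (weight β J)⁻¹) / 2 - ‖a J‖
        = (t * weight β J * ‖a J‖ - 1) ^ 2 / (2 * (t * weight β J)) := by
      field_simp
      ring
    have h7 : 0 ≤ (t * weight β J * ‖a J‖ - 1) ^ 2 / (2 * (t * weight β J)) := by positivity
    linarith
  have hs1 : Summable fun J => (t * (‖a J‖ ^ 2 * weight β J) + t⁻¹ * (weight β J)⁻¹) / 2 :=
    ((ha2.mul_left t).add (hsum.mul_left t⁻¹)).div_const 2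
  have hs2 : Summable fun J => ‖a J‖ := Summable.of_nonneg_of_le (fun _ => norm_nonneg _) hle hs1
  have hhalf : ∑' J, ‖a J‖ ≤ 1 / 2 := by
    have h8 : ∑' J, ‖a J‖ ≤ ∑' J, (t * (‖a J‖ ^ 2 * weight β J) + t⁻¹ * (weight β J)⁻¹) / 2 :=
      hs2.tsum_le_tsum hle hs1
    rw [tsum_div_const, (ha2.mul_left t).tsum_add (hsum.mul_left t⁻¹), tsum_mul_left,
      tsum_mul_left, ← hA] at h8
    have h9 : t * ∑' J, ‖a J‖ ^ 2 * weight β J ≤ t * (1 / (2 * t)) ^ 2 :=
      mul_le_mul_of_nonneg_left ha3.le ht0.le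
    have h10 : t * (1 / (2 * t)) ^ 2 = 1 / (4 * t) := by field_simp; norm_num
    have h11 : 1 / (4 * t) ≤ 1 / 4 := by
      apply one_div_le_one_div_of_le (by norm_num)
      linarith
    have h12 : t⁻¹ * A ≤ 1 / 2 := by
      rw [inv_mul_le_iff₀ ht0]
      linarith
    linarith
  -- evaluate near (1,1)
  have hr : ∀ r : ℝ, 0 < r → r < 1 →
      ‖MvPolynomial.eval ![(r : ℂ), (r : ℂ)] p * f₀ ((r : ℂ), (r : ℂ)) - 1‖ ≤ 1 / 2 := by
    intro r hr0 hr1
    have hn : ‖(r : ℂ)‖ < 1 := by rw [Complex.norm_real, Real.norm_of_nonneg hr0.le]; exact hr1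
    have h13 := ha1 ((r : ℂ), (r : ℂ)) hn hn
    have h14 : ∀ J : ℕ × ℕ, ‖a J * ((r : ℂ) ^ J.1 * (r : ℂ) ^ J.2)‖ ≤ ‖a J‖ := by
      intro J
      rw [norm_mul, norm_mul, norm_pow, norm_pow]
      have h15 : ‖(r : ℂ)‖ ^ J.1 ≤ 1 := pow_le_one₀ (norm_nonneg _) hn.le
      have h16 : ‖(r : ℂ)‖ ^ J.2 ≤ 1 := pow_le_one₀ (norm_nonneg _) hn.le
      have h17 : ‖(r : ℂ)‖ ^ J.1 * ‖(r : ℂ)‖ ^ J.2 ≤ 1 :=
        mul_le_one₀ h15 (by positivity) h16
      calc ‖a J‖ * _ ≤ ‖a J‖ * 1 := mul_le_mul_of_nonneg_left h17 (norm_nonneg _)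
        _ = ‖a J‖ := mul_one _
    have h18 := tsum_of_norm_bounded hs2.hasSum h14
    rw [h13.tsum_eq] at h18
    exact h18.trans hhalf
  have hcont : Continuous fun r : ℝ =>
      ‖MvPolynomial.eval ![(r : ℂ), (r : ℂ)] p * f₀ ((r : ℂ), (r : ℂ)) - 1‖ := by
    have hc1 : Continuous fun r : ℝ => MvPolynomial.eval ![(r : ℂ), (r : ℂ)] p := by
      have := MvPolynomial.continuous_eval p
      refine this.comp ?_
      refine continuous_pi fun i => ?_
      fin_cases i <;> simp <;> fun_prop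
    unfold f₀
    fun_prop
  have hlim := hcont.tendsto 1
  have hlim2 : Filter.Tendsto (fun r : ℝ =>
      ‖MvPolynomial.eval ![(r : ℂ), (r : ℂ)] p * f₀ ((r : ℂ), (r : ℂ)) - 1‖)
      (nhdsWithin 1 (Set.Iio 1)) (nhds 1) := by
    have := hlim.mono_left (nhdsWithin_le_nhds (s := Set.Iio 1))
    simpa [f₀] using this
  have hfin : (1 : ℝ) ≤ 1 / 2 := by
    refine le_of_tendsto hlim2 ?_
    have : Set.Ioo (0 : ℝ) 1 ∈ nhdsWithin 1 (Set.Iio 1) := Ioo_mem_nhdsLT (by norm_num)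
    filter_upwards [this] with r hr'
    exact hr r hr'.1 hr'.2
  norm_num at hfin

/-- **Main result.** For every real `β`, the function `f(z) = 1 - (z₁ + z₂) / 2` is cyclic in
`D_β(𝔻²)` if and only if `β ≤ 2`.  In particular it is cyclic for every `β` with `3/2 < β ≤ 2`. -/
theorem result (β : ℝ) : IsCyclicVector β f₀ ↔ β ≤ 2 := by
  constructor
  · intro h
    by_contra hβ
    exact not_cyclic_of_gt β (not_le.mp hβ) h
  · exact cyclic_of_le β

end Pool.Agent.Results.MP_f86430_an.CyclicIffLeTwo
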